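import Mathlib

/-!
# Rounding of fractional splittings (Beck and Fiala for partitions)

Every fractional assignment of the edges of a finite (multi)graph to groups can be rounded to an
integral one with an error less than `5` at every pair (vertex, group).
-/

set_option autoImplicit false

namespace Pool.Agent.Work.MP_db9399_rd.helper14

open Finset Classical

section

variable {E V I : Type*} [Fintype E] [Fintype V] [Fintype I]

/-- the fractional entries -/
noncomputable def frac (y : E → I → ℝ) : Finset (E × I) :=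
  univ.filter fun q => 0 < y q.1 q.2 ∧ y q.1 q.2 < 1

/-- the positive entries -/
noncomputable def pos (y : E → I → ℝ) : Finset (E × I) :=
  univ.filter fun q => 0 < y q.1 q.2

/-- incidence of an entry with a pair (vertex, group) -/
def At (inc : E → Finset V) (p : V × I) (q : E × I) : Prop := p.1 ∈ inc q.1 ∧ q.2 = p.2

/-- the fractional entries of group `i` at `v` -/
noncomputable def fr (inc : E → Finset V) (y : E → I → ℝ) (p : V × I) : Finset (E × I) :=
  (frac y).filter fun q => At inc p q

theorem sum_fr_le (inc : E → Finset V) (hinc : ∀ e, (inc e).card ≤ 2) (y : E → I → ℝ) :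
    ∑ p : V × I, (fr inc y p).card ≤ 2 * (frac y).card := by
  have h := sum_card_bipartiteAbove_eq_sum_card_bipartiteBelow (s := (univ : Finset (V × I)))
    (t := frac y) (fun p q => At inc p q)
  have h1 : ∑ p : V × I, (fr inc y p).card = ∑ q ∈ frac y, (inc q.1).card := by
    calc ∑ p : V × I, (fr inc y p).card = _ := h
      _ = ∑ q ∈ frac y, (inc q.1).card := by
        refine sum_congr rfl fun q _ => ?_
        rw [bipartiteBelow]
        refine (card_nbij (fun v => (v, q.2)) ?_ ?_ ?_).symm
        · intro v hv; simpa [At] using hv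
        · intro v _ w _ hvw; simpa using hvw
        · rintro ⟨v, i⟩ hp
          simp only [coe_filter, mem_univ, true_and, Set.mem_ofPred_eq, At] at hp
          exact ⟨v, hp.1, by simp [hp.2]⟩
  rw [h1]
  calc ∑ q ∈ frac y, (inc q.1).card ≤ ∑ q ∈ frac y, 2 := sum_le_sum fun q _ => hinc q.1
    _ = 2 * (frac y).card := by rw [sum_const, smul_eq_mul, mul_comm]

/-- edges with a fractional entry -/
noncomputable def fe (y : E → I → ℝ) : Finset E := (frac y).image Prod.fst

theorem two_fe_le (y : E → I → ℝ) (h0 : ∀ e i, 0 ≤ y e i) (h1 : ∀ e, ∑ i, y e i = 1) :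
    2 * (fe y).card ≤ (frac y).card := by
  have h : ∀ e ∈ fe y, 2 ≤ ((frac y).filter fun q => q.1 = e).card := by
    intro e he
    obtain ⟨q, hq, rfl⟩ := mem_image.1 he
    obtain ⟨e, i⟩ := q
    have hq' := (mem_filter.1 hq).2
    simp only at hq'
    obtain ⟨j, hj, hji⟩ : ∃ j, 0 < y e j ∧ j ≠ i := by
      by_contra hc
      push Not at hc
      have : ∑ k, y e k = y e i := by
        refine sum_eq_single i (fun k _ hk => ?_) (by simp)
        by_contra hne
        exact hk (hc k (lt_of_le_of_ne (h0 e k) (Ne.symm hne)))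
      rw [h1] at this
      linarith [hq'.2]
    have hlt : y e j < 1 := by
      have : y e i + y e j ≤ ∑ k, y e k := by
        rw [← sum_pair (f := fun k => y e k) hji.symm]
        exact sum_le_sum_of_subset_of_nonneg (subset_univ _) fun k _ _ => h0 e k
      rw [h1] at this
      linarith [hq'.1]
    have hsub : ({(e, i), (e, j)} : Finset (E × I)) ⊆ (frac y).filter fun q => q.1 = e := by
      intro q hq2
      simp only [mem_insert, mem_singleton] at hq2
      rcases hq2 with rfl | rfl
      · exact mem_filter.2 ⟨hq, rfl⟩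
      · exact mem_filter.2 ⟨mem_filter.2 ⟨mem_univ _, hj, hlt⟩, rfl⟩
    calc 2 = ({(e, i), (e, j)} : Finset (E × I)).card := by
          rw [card_pair]; simpa using hji.symm
      _ ≤ _ := card_le_card hsub
  calc 2 * (fe y).card = ∑ e ∈ fe y, 2 := by rw [sum_const, smul_eq_mul, mul_comm]
    _ ≤ ∑ e ∈ fe y, ((frac y).filter fun q => q.1 = e).card := sum_le_sum h
    _ = (frac y).card := (card_eq_sum_card_image Prod.fst (frac y)).symm

/-- the active constraints -/
noncomputable def act (inc : E → Finset V) (y : E → I → ℝ) : Finset (V × I) :=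
  univ.filter fun p => 5 ≤ (fr inc y p).card

theorem five_act_le (inc : E → Finset V) (hinc : ∀ e, (inc e).card ≤ 2) (y : E → I → ℝ) :
    5 * (act inc y).card ≤ 2 * (frac y).card := by
  calc 5 * (act inc y).card = ∑ p ∈ act inc y, 5 := by rw [sum_const, smul_eq_mul, mul_comm]
    _ ≤ ∑ p ∈ act inc y, (fr inc y p).card := sum_le_sum fun p hp => (mem_filter.1 hp).2
    _ ≤ ∑ p : V × I, (fr inc y p).card :=
        sum_le_sum_of_subset_of_nonneg (subset_univ _) fun _ _ _ => Nat.zero_le _
    _ ≤ _ := sum_fr_le inc hinc y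

theorem exists_dir (inc : E → Finset V) (hinc : ∀ e, (inc e).card ≤ 2) (y : E → I → ℝ)
    (h0 : ∀ e i, 0 ≤ y e i) (h1 : ∀ e, ∑ i, y e i = 1) (hf : (frac y).Nonempty) :
    ∃ z : E → I → ℝ, (∃ e i, z e i ≠ 0) ∧ (∀ e i, z e i ≠ 0 → (e, i) ∈ frac y) ∧
      (∀ e, ∑ i, z e i = 0) ∧
      ∀ p ∈ act inc y, ∑ e ∈ univ.filter (fun e => p.1 ∈ inc e), z e p.2 = 0 := by
  -- extension by zero
  let ext : (↥(frac y) → ℝ) →ₗ[ℝ] (E → I → ℝ) :=
    { toFun := fun f e i => if h : (e, i) ∈ frac y then f ⟨(e, i), h⟩ else 0
      map_add' := by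
        intro f g; funext e i
        by_cases h : (e, i) ∈ frac y <;> simp [h]
      map_smul' := by
        intro c f; funext e i
        by_cases h : (e, i) ∈ frac y <;> simp [h] }
  let L : (↥(frac y) → ℝ) →ₗ[ℝ] (↥(fe y) → ℝ) ×
      (↥(act inc y) → ℝ) :=
    { toFun := fun f => (fun e => ∑ i, ext f e.1 i,
        fun p => ∑ e ∈ univ.filter (fun e => p.1.1 ∈ inc e), ext f e p.1.2)
      map_add' := by
        intro f g
        rw [Prod.ext_iff]
        constructor
        · funext e; simp [map_add, sum_add_distrib]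
        · funext p; simp [map_add, sum_add_distrib]
      map_smul' := by
        intro c f
        rw [Prod.ext_iff]
        constructor
        · funext e; simp [map_smul, mul_sum]
        · funext p; simp [map_smul, mul_sum] }
  have hdim : Module.finrank ℝ ((↥(fe y) → ℝ) × (↥(act inc y) → ℝ)) <
      Module.finrank ℝ (↥(frac y) → ℝ) := by
    rw [Module.finrank_prod, Module.finrank_fintype_fun_eq_card, Module.finrank_fintype_fun_eq_card,
      Module.finrank_fintype_fun_eq_card, Fintype.card_coe, Fintype.card_coe, Fintype.card_coe]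
    have a1 := two_fe_le y h0 h1
    have a2 := five_act_le inc hinc y
    have a3 : 0 < (frac y).card := card_pos.2 hf
    omega
  have hker := LinearMap.ker_ne_bot_of_finrank_lt (f := L) hdim
  obtain ⟨f, hfL, hf0⟩ := (Submodule.ne_bot_iff _).1 hker
  have hL : L f = 0 := hfL
  have hL1 : ∀ e : ↥(fe y), ∑ i, ext f e.1 i = 0 := fun e => congrFun (congrArg Prod.fst hL) e
  have hL2 : ∀ p : ↥(act inc y),
      ∑ e ∈ univ.filter (fun e => p.1.1 ∈ inc e), ext f e p.1.2 = 0 :=
    fun p => congrFun (congrArg Prod.snd hL) p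
  refine ⟨ext f, ?_, ?_, ?_, ?_⟩
  · by_contra hc
    push Not at hc
    apply hf0
    funext q
    have := hc q.1.1 q.1.2
    simpa [ext] using this
  · intro e i h
    by_contra hn
    apply h
    simp [ext, hn]
  · intro e
    by_cases he : e ∈ fe y
    · exact hL1 ⟨e, he⟩
    · refine sum_eq_zero fun i _ => ?_
      have : (e, i) ∉ frac y := fun h => he (mem_image.2 ⟨(e, i), h, rfl⟩)
      simp [ext, this]
  · intro p hp
    exact hL2 ⟨p, hp⟩

/-- the error of a non-active pair -/
theorem err_small (inc : E → Finset V) (y : E → I → ℝ) (h0 : ∀ e i, 0 ≤ y e i)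
    (h1 : ∀ e, ∑ i, y e i = 1) (c : E → I) (hc : ∀ e, 0 < y e (c e)) (p : V × I)
    (hp : (fr inc y p).card ≤ 4) :
    |(((univ.filter fun e => p.1 ∈ inc e ∧ c e = p.2).card : ℝ) -
      ∑ e ∈ univ.filter (fun e => p.1 ∈ inc e), y e p.2)| < 5 := by
  have hle1 : ∀ e i, y e i ≤ 1 := by
    intro e i
    rw [← h1 e]
    exact single_le_sum (f := fun i => y e i) (fun k _ => h0 e k) (mem_univ i)
  have e1 : (((univ.filter fun e => p.1 ∈ inc e ∧ c e = p.2).card : ℝ) -
      ∑ e ∈ univ.filter (fun e => p.1 ∈ inc e), y e p.2) =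
      ∑ e ∈ univ.filter (fun e => p.1 ∈ inc e), ((if c e = p.2 then 1 else 0) - y e p.2) := by
    rw [sum_sub_distrib]
    congr 1
    rw [← filter_filter, ← sum_boole]
  rw [e1]
  have e2 : ∀ e ∈ univ.filter (fun e => p.1 ∈ inc e),
      |((if c e = p.2 then 1 else 0) - y e p.2 : ℝ)| ≤ if (e, p.2) ∈ frac y then 1 else 0 := by
    intro e _
    by_cases hfe : (e, p.2) ∈ frac y
    · rw [if_pos hfe]
      have a := h0 e p.2
      have b := hle1 e p.2
      split_ifs
      · rw [abs_le]; constructor <;> linarith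
      · rw [abs_le]; constructor <;> linarith
    · rw [if_neg hfe]
      have hfe' : ¬ (0 < y e p.2 ∧ y e p.2 < 1) := fun h => hfe (mem_filter.2 ⟨mem_univ _, h⟩)
      rcases (h0 e p.2).eq_or_lt with hz | hz
      · have : c e ≠ p.2 := by
          intro h
          have := hc e
          rw [h, ← hz] at this
          exact lt_irrefl _ this
        rw [if_neg this, ← hz]
        simp
      · have h11 : y e p.2 = 1 := le_antisymm (hle1 e p.2) (not_lt.1 fun h => hfe' ⟨hz, h⟩)
        have : c e = p.2 := by
          by_contra hne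
          have h3 : y e (c e) + y e p.2 ≤ ∑ k, y e k := by
            rw [← sum_pair (f := fun k => y e k) hne]
            exact sum_le_sum_of_subset_of_nonneg (subset_univ _) fun k _ _ => h0 e k
          rw [h1, h11] at h3
          linarith [hc e]
        rw [if_pos this, h11]
        simp
  calc |∑ e ∈ univ.filter (fun e => p.1 ∈ inc e), (((if c e = p.2 then 1 else 0) - y e p.2 : ℝ))|
      ≤ ∑ e ∈ univ.filter (fun e => p.1 ∈ inc e),
          |((if c e = p.2 then 1 else 0) - y e p.2 : ℝ)| := abs_sum_le_sum_abs _ _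
    _ ≤ ∑ e ∈ univ.filter (fun e => p.1 ∈ inc e), (if (e, p.2) ∈ frac y then 1 else 0) :=
        sum_le_sum e2
    _ = ((fr inc y p).card : ℝ) := by
        rw [sum_boole, filter_filter]
        congr 1
        refine card_nbij (fun e => (e, p.2)) ?_ ?_ ?_
        · intro e he
          have he' := (mem_filter.1 he).2
          exact mem_filter.2 ⟨he'.2, he'.1, rfl⟩
        · intro e _ e' _ h; simpa using h
        · rintro ⟨e, i⟩ hq
          have hq' := mem_filter.1 (mem_coe.1 hq)
          have hi : i = p.2 := hq'.2.2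
          refine ⟨e, ?_, ?_⟩
          · rw [mem_coe, mem_filter]
            exact ⟨mem_univ _, hq'.2.1, hi ▸ hq'.1⟩
          · simp [hi]
    _ ≤ 4 := by exact_mod_cast hp
    _ < 5 := by norm_num

/-- **Rounding.** -/
theorem round_aux (inc : E → Finset V) (hinc : ∀ e, (inc e).card ≤ 2) (n : ℕ) :
    ∀ y : E → I → ℝ, (pos y).card = n → (∀ e i, 0 ≤ y e i) → (∀ e, ∑ i, y e i = 1) →
    ∃ c : E → I, (∀ e, 0 < y e (c e)) ∧ ∀ p : V × I,
      |(((univ.filter fun e => p.1 ∈ inc e ∧ c e = p.2).card : ℝ) -
        ∑ e ∈ univ.filter (fun e => p.1 ∈ inc e), y e p.2)| < 5 := by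
  induction n using Nat.strong_induction_on with
  | _ n ih =>
    intro y hn h0 h1
    by_cases hf : (frac y).Nonempty
    · obtain ⟨z, ⟨e0, i0, hz0⟩, hzs, hz1, hz2⟩ := exists_dir inc hinc y h0 h1 hf
      -- negative entries
      let N : Finset (E × I) := univ.filter fun q => z q.1 q.2 < 0
      have hN : N.Nonempty := by
        rcases lt_or_gt_of_ne hz0 with h | h
        · exact ⟨(e0, i0), mem_filter.2 ⟨mem_univ _, h⟩⟩
        · by_contra hne
          have h2 : ∀ j, 0 ≤ z e0 j := by
            intro j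
            by_contra hj
            exact hne ⟨(e0, j), mem_filter.2 ⟨mem_univ _, not_le.1 hj⟩⟩
          have h3 : z e0 i0 ≤ ∑ i, z e0 i := single_le_sum (fun j _ => h2 j) (mem_univ i0)
          rw [hz1] at h3
          exact absurd h3 (not_le.2 h)
      obtain ⟨q, hqN, hqmin⟩ := N.exists_min_image (fun q => y q.1 q.2 / (-z q.1 q.2)) hN
      have hzq : z q.1 q.2 < 0 := (mem_filter.1 hqN).2
      have hqf : (q.1, q.2) ∈ frac y := hzs _ _ hzq.ne
      have hyq : 0 < y q.1 q.2 := (mem_filter.1 hqf).2.1
      set t : ℝ := y q.1 q.2 / (-z q.1 q.2) with ht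
      have htpos : 0 < t := div_pos hyq (by linarith)
      let y' : E → I → ℝ := fun e i => y e i + t * z e i
      have h0' : ∀ e i, 0 ≤ y' e i := by
        intro e i
        by_cases hneg : z e i < 0
        · have h2 := hqmin (e, i) (mem_filter.2 ⟨mem_univ _, hneg⟩)
          have h3 : t ≤ y e i / (-z e i) := h2
          rw [le_div_iff₀ (by linarith)] at h3
          show 0 ≤ y e i + t * z e i
          linarith
        · have := mul_nonneg htpos.le (not_lt.1 hneg)
          show 0 ≤ y e i + t * z e i
          linarith [h0 e i]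
      have h1' : ∀ e, ∑ i, y' e i = 1 := by
        intro e
        show ∑ i, (y e i + t * z e i) = 1
        rw [sum_add_distrib, ← mul_sum, hz1, h1]; simp
      have hsub : pos y' ⊆ pos y := by
        intro q' hq'
        have hq'' : 0 < y q'.1 q'.2 + t * z q'.1 q'.2 := (mem_filter.1 hq').2
        refine mem_filter.2 ⟨mem_univ _, ?_⟩
        by_cases hz : z q'.1 q'.2 = 0
        · rw [hz] at hq''; simpa using hq''
        · exact (mem_filter.1 (hzs _ _ hz)).2.1
      have hlt : (pos y').card < n := by
        rw [← hn]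
        refine card_lt_card ⟨hsub, fun h => ?_⟩
        have h3 := (mem_filter.1 (h (mem_filter.2 ⟨mem_univ q, hyq⟩))).2
        have h4 : y q.1 q.2 + t * z q.1 q.2 = 0 := by
          have h41 : t * (-z q.1 q.2) = y q.1 q.2 := by
            rw [ht]; exact div_mul_cancel₀ _ (by linarith)
          linarith
        have h5 : 0 < y q.1 q.2 + t * z q.1 q.2 := h3
        linarith
      obtain ⟨c, hc1, hc2⟩ := ih _ hlt y' rfl h0' h1'
      have hc : ∀ e, 0 < y e (c e) := fun e =>
        (mem_filter.1 (hsub (mem_filter.2 ⟨mem_univ (e, c e), hc1 e⟩))).2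
      refine ⟨c, hc, fun p => ?_⟩
      by_cases hp : p ∈ act inc y
      · have h6 : ∑ e ∈ univ.filter (fun e => p.1 ∈ inc e), y' e p.2 =
            ∑ e ∈ univ.filter (fun e => p.1 ∈ inc e), y e p.2 := by
          show ∑ e ∈ univ.filter (fun e => p.1 ∈ inc e), (y e p.2 + t * z e p.2) = _
          rw [sum_add_distrib, ← mul_sum, hz2 p hp]; simp
        have h7 := hc2 p
        rwa [h6] at h7
      · refine err_small inc y h0 h1 c hc p ?_
        by_contra h
        exact hp (mem_filter.2 ⟨mem_univ _, by omega⟩)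
    · have hex : ∀ e, ∃ i, 0 < y e i := by
        intro e
        by_contra h
        push Not at h
        have : ∑ i, y e i = 0 := sum_eq_zero fun i _ => le_antisymm (h i) (h0 e i)
        rw [h1] at this
        exact one_ne_zero this
      choose c hc using hex
      refine ⟨c, hc, fun p => err_small inc y h0 h1 c hc p ?_⟩
      have : (fr inc y p) = ∅ := by
        rw [fr, not_nonempty_iff_eq_empty.1 hf]; simp
      rw [this]; simp

/-- **Rounding of fractional splittings.** -/
theorem round (inc : E → Finset V) (hinc : ∀ e, (inc e).card ≤ 2) (y : E → I → ℝ)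
    (h0 : ∀ e i, 0 ≤ y e i) (h1 : ∀ e, ∑ i, y e i = 1) :
    ∃ c : E → I, (∀ e, 0 < y e (c e)) ∧ ∀ v i,
      |(((univ.filter fun e => v ∈ inc e ∧ c e = i).card : ℝ) -
        ∑ e ∈ univ.filter (fun e => v ∈ inc e), y e i)| < 5 := by
  obtain ⟨c, hc, h⟩ := round_aux inc hinc _ y rfl h0 h1
  exact ⟨c, hc, fun v i => h (v, i)⟩

end

end Pool.Agent.Work.MP_db9399_rd.helper14
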